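import Pool.Agent.helper5.PR.SpecY

/-! Project pr: (MP_a2a22c_al): module Y-TORF: finitely generated nilpotent torsion groups are finite. -/

set_option autoImplicit false

namespace Pool.Agent.PR

open scoped IsMulCommutative

theorem Y_TORF_aux (P : Type) [Group P] [Group.IsNilpotent P] :
    Group.FG P → (∀ g : P, ∃ k : ℕ, 0 < k ∧ g ^ k = 1) → Finite P := by
  refine Group.nilpotent_center_quotient_ind (P := fun G _ _ =>
    Group.FG G → (∀ g : G, ∃ k : ℕ, 0 < k ∧ g ^ k = 1) → Finite G) P ?_ ?_
  · intro G _ _ _ _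
    exact Finite.of_subsingleton
  · intro G _ _ ih hfg htor
    have hq : Finite (G ⧸ Subgroup.center G) := by
      refine ih (QuotientGroup.fg _) fun g => ?_
      obtain ⟨g, rfl⟩ := QuotientGroup.mk_surjective g
      obtain ⟨k, hk, h⟩ := htor g
      exact ⟨k, hk, by rw [← QuotientGroup.mk_pow, h, QuotientGroup.mk_one]⟩
    have hi : (Subgroup.center G).FiniteIndex := Subgroup.finiteIndex_of_finite_quotient
    have hc : Group.FG (Subgroup.center G) := Subgroup.fg_of_index_ne_zero _
    have hcf : Finite (Subgroup.center G) := by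
      refine CommGroup.finite_of_fg_isMulTorsion (Subgroup.center G) ?_
      intro g
      obtain ⟨k, hk, h⟩ := htor g
      exact isOfFinOrder_iff_pow_eq_one.2 ⟨k, hk, Subtype.ext h⟩
    exact Finite.of_subgroup_quotient (Subgroup.center G)

theorem Y_TORF : Y_TORF_stmt := by
  intro P _ hfg hnil htor
  exact Y_TORF_aux P hfg htor

end Pool.Agent.PR
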